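import Pool.Agent.helper62.RS.SpecG

/-!
MP_07c750, rare scars, row GDU: duality
-/

set_option autoImplicit false

open scoped MatrixGroups ContDiff Topology UpperHalfPlane
open UpperHalfPlane MeasureTheory Filter Set

namespace Pool.Agent.RS

section abs

variable {X Y : Type} [MeasurableSpace X] [MeasurableSpace Y] {μ : Measure X} {ν : Measure Y}
  [IsFiniteMeasure μ] [IsFiniteMeasure ν]

theorem GDU_swap {p : X → Y → ℂ} (hp : Measurable (Function.uncurry p)) {m : ℝ}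
    (hm : ∀ x y, ‖p x y‖ ≤ m) {v : X → ℂ} (hv : Measurable v) {a : ℝ} (ha : ∀ x, ‖v x‖ ≤ a)
    {u : Y → ℂ} (hu : Measurable u) {b : ℝ} (hb : ∀ y, ‖u y‖ ≤ b) :
    ∫ y, (∫ x, v x * p x y ∂μ) * u y ∂ν = ∫ x, v x * (∫ y, p x y * u y ∂ν) ∂μ := by
  have h1 : Integrable (Function.uncurry fun (y : Y) (x : X) => v x * p x y * u y) (ν.prod μ) := by
    refine Integrable.of_bound ?_ (a * m * b) (Filter.Eventually.of_forall ?_)
    · have h2 : Measurable (fun q : Y × X => v q.2 * p q.2 q.1 * u q.1) :=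
        ((hv.comp measurable_snd).mul (hp.comp (measurable_snd.prodMk measurable_fst))).mul
          (hu.comp measurable_fst)
      exact h2.aestronglyMeasurable
    · rintro ⟨y, x⟩
      show ‖v x * p x y * u y‖ ≤ a * m * b
      rw [norm_mul, norm_mul]
      have ha0 : 0 ≤ a := le_trans (norm_nonneg _) (ha x)
      have hm0 : 0 ≤ m := le_trans (norm_nonneg _) (hm x y)
      exact mul_le_mul (mul_le_mul (ha x) (hm x y) (norm_nonneg _) ha0) (hb y) (norm_nonneg _)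
        (mul_nonneg ha0 hm0)
  calc ∫ y, (∫ x, v x * p x y ∂μ) * u y ∂ν = ∫ y, ∫ x, v x * p x y * u y ∂μ ∂ν := by
        refine integral_congr_ae (Filter.Eventually.of_forall fun y => ?_)
        exact (integral_mul_const _ _).symm
    _ = ∫ x, ∫ y, v x * p x y * u y ∂ν ∂μ := integral_integral_swap h1
    _ = ∫ x, v x * (∫ y, p x y * u y ∂ν) ∂μ := by
        refine integral_congr_ae (Filter.Eventually.of_forall fun x => ?_)
        show ∫ y, v x * p x y * u y ∂ν = v x * ∫ y, p x y * u y ∂ν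
        rw [← integral_const_mul]
        refine integral_congr_ae (Filter.Eventually.of_forall fun y => ?_)
        show v x * p x y * u y = v x * (p x y * u y)
        ring

/-- Cauchy-Schwarz for bounded functions -/
theorem GDU_cs {f g : X → ℂ} (hf : AEStronglyMeasurable f μ) (hg : AEStronglyMeasurable g μ)
    {a b : ℝ} (ha : ∀ x, ‖f x‖ ≤ a) (hb : ∀ x, ‖g x‖ ≤ b) :
    ‖∫ x, f x * g x ∂μ‖ ≤ Real.sqrt (∫ x, ‖f x‖ ^ 2 ∂μ) * Real.sqrt (∫ x, ‖g x‖ ^ 2 ∂μ) := by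
  have hfn : Integrable (fun x => ‖f x‖ ^ 2) μ := by
    refine Integrable.of_bound (hf.norm.pow 2) (a ^ 2) (Filter.Eventually.of_forall fun x => ?_)
    rw [Real.norm_eq_abs, abs_of_nonneg (by positivity)]
    exact pow_le_pow_left₀ (norm_nonneg _) (ha x) 2
  have hgn : Integrable (fun x => ‖g x‖ ^ 2) μ := by
    refine Integrable.of_bound (hg.norm.pow 2) (b ^ 2) (Filter.Eventually.of_forall fun x => ?_)
    rw [Real.norm_eq_abs, abs_of_nonneg (by positivity)]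
    exact pow_le_pow_left₀ (norm_nonneg _) (hb x) 2
  have hfg : Integrable (fun x => ‖f x‖ * ‖g x‖) μ := by
    refine Integrable.of_bound (hf.norm.mul hg.norm) (a * b)
      (Filter.Eventually.of_forall fun x => ?_)
    rw [Real.norm_eq_abs, abs_of_nonneg (by positivity)]
    exact mul_le_mul (ha x) (hb x) (norm_nonneg _) (le_trans (norm_nonneg _) (ha x))
  set A := ∫ x, ‖f x‖ ^ 2 ∂μ with hA
  set B := ∫ x, ‖g x‖ ^ 2 ∂μ with hB
  set C := ∫ x, ‖f x‖ * ‖g x‖ ∂μ with hC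
  have hA0 : 0 ≤ A := integral_nonneg fun x => by positivity
  have hB0 : 0 ≤ B := integral_nonneg fun x => by positivity
  have hC0 : 0 ≤ C := integral_nonneg fun x => by positivity
  have hquad : ∀ t : ℝ, 0 ≤ B * (t * t) + (-2 * C) * t + A := by
    intro t
    have h1 : 0 ≤ ∫ x, (‖f x‖ - t * ‖g x‖) ^ 2 ∂μ := integral_nonneg fun x => by positivity
    have h2 : ∫ x, (‖f x‖ - t * ‖g x‖) ^ 2 ∂μ = B * (t * t) + (-2 * C) * t + A := by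
      have h3 : ∀ x, (‖f x‖ - t * ‖g x‖) ^ 2 =
          (t * t) * ‖g x‖ ^ 2 + ((-2 * t) * (‖f x‖ * ‖g x‖) + ‖f x‖ ^ 2) := fun x => by ring
      have e1 : Integrable (fun x => (t * t) * ‖g x‖ ^ 2) μ := hgn.const_mul _
      have e2 : Integrable (fun x => (-2 * t) * (‖f x‖ * ‖g x‖)) μ := hfg.const_mul _
      have e3 : Integrable (fun x => (-2 * t) * (‖f x‖ * ‖g x‖) + ‖f x‖ ^ 2) μ := e2.add hfn
      simp_rw [h3]
      rw [integral_add e1 e3, integral_add e2 hfn, integral_const_mul, integral_const_mul, ← hA,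
        ← hB, ← hC]
      ring
    rw [h2] at h1
    exact h1
  have hdisc := discrim_le_zero hquad
  unfold discrim at hdisc
  have hCAB : C ^ 2 ≤ A * B := by nlinarith
  calc ‖∫ x, f x * g x ∂μ‖ ≤ ∫ x, ‖f x * g x‖ ∂μ := norm_integral_le_integral_norm _
    _ = C := by
        rw [hC]
        refine integral_congr_ae (Filter.Eventually.of_forall fun x => ?_)
        exact norm_mul _ _
    _ ≤ Real.sqrt (A * B) := Real.le_sqrt_of_sq_le hCAB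
    _ = Real.sqrt A * Real.sqrt B := Real.sqrt_mul hA0 B

end abs

/-- invariant continuous functions on the half-plane are bounded -/
theorem GDU_bdd {Γ : Subgroup SL(2, ℝ)} (hΓ : QU.SurfaceGroup Γ) {u : ℍ → ℂ} (hu : InvC Γ u) :
    ∃ m : ℝ, ∀ z, ‖u z‖ ≤ m := by
  obtain ⟨K, hK, hcov⟩ := hΓ.cocompact
  obtain ⟨m, hm⟩ := hK.exists_bound_of_continuousOn hu.1.continuousOn
  refine ⟨m, fun z => ?_⟩
  obtain ⟨γ, hγ⟩ := hcov z
  rw [← hu.2 γ z]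
  exact hm _ hγ

theorem GDU_left (P : SL(2, ℝ) → ℍ → ℂ)
    (hpc : Continuous (fun p : SL(2, ℝ) × ℍ => P p.1 p.2)) (z : ℍ) :
    Continuous fun g : SL(2, ℝ) => P g z := by
  have h : Continuous (fun g : SL(2, ℝ) => (g, z)) := Continuous.prodMk_left z
  exact hpc.comp h

theorem GDU_right (P : SL(2, ℝ) → ℍ → ℂ)
    (hpc : Continuous (fun p : SL(2, ℝ) × ℍ => P p.1 p.2)) (g : SL(2, ℝ)) :
    Continuous fun z : ℍ => P g z := by
  have h : Continuous (fun z : ℍ => (g, z)) := Continuous.prodMk_right g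
  exact hpc.comp h

/-- the first claim -/
theorem GDU_inv (Γ : Subgroup SL(2, ℝ)) (F : Set ℍ) (hfG : IsFiniteMeasure (mG.restrict (dG F)))
    (P : SL(2, ℝ) → ℍ → ℂ) (hpc : Continuous (fun p : SL(2, ℝ) × ℍ => P p.1 p.2))
    (hpz : ∀ (γ : Γ) (g : SL(2, ℝ)) (z : ℍ), P g (γ • z) = P g z) (m₀ : ℝ)
    (hm₀ : ∀ g z, ‖P g z‖ ≤ m₀) (w : SL(2, ℝ) → ℂ) (hw : Measurable w)
    (hwb : ∃ m, ∀ g, ‖w g‖ ≤ m) : InvC Γ (fun z => ∫ g in dG F, w g * P g z ∂mG) := by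
  obtain ⟨a, ha⟩ := hwb
  refine ⟨?_, ?_⟩
  · refine continuous_of_dominated (bound := fun _ => a * m₀) ?_ ?_ ?_ ?_
    · intro z
      exact (hw.mul (GDU_left P hpc z).measurable).aestronglyMeasurable
    · intro z
      refine Filter.Eventually.of_forall fun g => ?_
      rw [norm_mul]
      exact mul_le_mul (ha g) (hm₀ g z) (norm_nonneg _) (le_trans (norm_nonneg _) (ha g))
    · exact integrable_const _
    · exact Filter.Eventually.of_forall fun g => continuous_const.mul (GDU_right P hpc g)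
  · intro γ z
    refine integral_congr_ae (Filter.Eventually.of_forall fun g => ?_)
    show w g * P g (γ • z) = w g * P g z
    rw [hpz γ g z]

/-- the second claim -/
theorem GDU_pair (Γ : Subgroup SL(2, ℝ)) (F : Set ℍ) (hΓ : QU.SurfaceGroup Γ)
    (hfG : IsFiniteMeasure (mG.restrict (dG F)))
    (hfF : IsFiniteMeasure ((volume : Measure ℍ).restrict F))
    (P : SL(2, ℝ) → ℍ → ℂ) (hpc : Continuous (fun p : SL(2, ℝ) × ℍ => P p.1 p.2)) (m₀ : ℝ)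
    (hm₀ : ∀ g z, ‖P g z‖ ≤ m₀) (W : (ℍ → ℂ) → SL(2, ℝ) → ℂ)
    (hunf : ∀ u : ℍ → ℂ, InvC Γ u → ∀ g, ∫ z in F, P g z * u z = W u g)
    (w : SL(2, ℝ) → ℂ) (hw : Measurable w)
    (hwb : ∃ m, ∀ g, ‖w g‖ ≤ m) (u : ℍ → ℂ) (hu : InvC Γ u) :
    ∫ z in F, (∫ g in dG F, w g * P g z ∂mG) * u z = ∫ g in dG F, w g * W u g ∂mG := by
  obtain ⟨a, ha⟩ := hwb
  obtain ⟨b, hb⟩ := GDU_bdd hΓ hu
  have hpm : Measurable (Function.uncurry fun (g : SL(2, ℝ)) (z : ℍ) => P g z) := hpc.measurable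
  rw [GDU_swap (μ := mG.restrict (dG F)) (ν := (volume : Measure ℍ).restrict F) hpm
    hm₀ hw ha hu.1.measurable hb]
  refine integral_congr_ae (Filter.Eventually.of_forall fun g => ?_)
  show w g * ∫ z in F, P g z * u z = w g * W u g
  rw [hunf u hu g]

/-- the third claim -/
theorem GDU_third (Γ : Subgroup SL(2, ℝ)) (F : Set ℍ) (hΓ : QU.SurfaceGroup Γ)
    (hfG : IsFiniteMeasure (mG.restrict (dG F)))
    (hfF : IsFiniteMeasure ((volume : Measure ℍ).restrict F))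
    (P : SL(2, ℝ) → ℍ → ℂ) (hpc : Continuous (fun p : SL(2, ℝ) × ℍ => P p.1 p.2))
    (hpz : ∀ (γ : Γ) (g : SL(2, ℝ)) (z : ℍ), P g (γ • z) = P g z) (m₀ : ℝ)
    (hm₀ : ∀ g z, ‖P g z‖ ≤ m₀) (W : (ℍ → ℂ) → SL(2, ℝ) → ℂ)
    (hunf : ∀ u : ℍ → ℂ, InvC Γ u → ∀ g, ∫ z in F, P g z * u z = W u g)
    (v v' : SL(2, ℝ) → ℂ) (hv : Measurable v) (hv' : Measurable v')
    (hvb : ∃ m, ∀ g, ‖v g‖ ≤ m) (hv'b : ∃ m, ∀ g, ‖v' g‖ ≤ m) :
    ∫ g in dG F, ∫ g' in dG F, v g * (∫ z in F, P g z * P g' z) * v' g' ∂mG ∂mG =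
      ∫ z in F, (∫ g in dG F, v g * P g z ∂mG) * (∫ g in dG F, v' g * P g z ∂mG) := by
  have hI' := GDU_inv Γ F hfG P hpc hpz m₀ hm₀ v' hv' hv'b
  rw [GDU_pair Γ F hΓ hfG hfF P hpc m₀ hm₀ W hunf v hv hvb _ hI']
  refine integral_congr_ae (Filter.Eventually.of_forall fun g => ?_)
  show ∫ g' in dG F, v g * (∫ z in F, P g z * P g' z) * v' g' ∂mG =
    v g * W (fun z => ∫ g in dG F, v' g * P g z ∂mG) g
  rw [← hunf _ hI' g]
  obtain ⟨a', ha'⟩ := hv'b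
  have hpm : Measurable (Function.uncurry fun (g : SL(2, ℝ)) (z : ℍ) => P g z) := hpc.measurable
  have h1 := GDU_swap (μ := mG.restrict (dG F)) (ν := (volume : Measure ℍ).restrict F) hpm
    hm₀ hv' ha' (GDU_right P hpc g).measurable (hm₀ g)
  have h2 : ∫ z in F, P g z * (∫ g' in dG F, v' g' * P g' z ∂mG) =
      ∫ z in F, (∫ g' in dG F, v' g' * P g' z ∂mG) * P g z := by
    refine integral_congr_ae (Filter.Eventually.of_forall fun z => ?_)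
    exact mul_comm _ _
  rw [h2, h1, ← integral_const_mul]
  refine integral_congr_ae (Filter.Eventually.of_forall fun g' => ?_)
  show v g * (∫ z in F, P g z * P g' z) * v' g' = v g * (v' g' * ∫ z in F, P g' z * P g z)
  have h3 : ∫ z in F, P g' z * P g z = ∫ z in F, P g z * P g' z := by
    refine integral_congr_ae (Filter.Eventually.of_forall fun z => ?_)
    exact mul_comm _ _
  rw [h3]
  ring

/-- the bound for one function -/
theorem GDU_one (Γ : Subgroup SL(2, ℝ)) (F : Set ℍ) (κ : ℝ) (hΓ : QU.SurfaceGroup Γ)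
    (hfG : IsFiniteMeasure (mG.restrict (dG F)))
    (hfF : IsFiniteMeasure ((volume : Measure ℍ).restrict F))
    (P : SL(2, ℝ) → ℍ → ℂ) (hpc : Continuous (fun p : SL(2, ℝ) × ℍ => P p.1 p.2))
    (hpz : ∀ (γ : Γ) (g : SL(2, ℝ)) (z : ℍ), P g (γ • z) = P g z) (m₀ : ℝ)
    (hm₀ : ∀ g z, ‖P g z‖ ≤ m₀) (W : (ℍ → ℂ) → SL(2, ℝ) → ℂ)
    (hunf : ∀ u : ℍ → ℂ, InvC Γ u → ∀ g, ∫ z in F, P g z * u z = W u g)
    (hWc : ∀ u : ℍ → ℂ, InvC Γ u → Continuous (W u) ∧ ∃ b, ∀ g, ‖W u g‖ ≤ b)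
    (hκ : 0 ≤ κ)
    (hκb : ∀ u : ℍ → ℂ, InvC Γ u → ∫ g in dG F, ‖W u g‖ ^ 2 ∂mG ≤ κ * ∫ z in F, ‖u z‖ ^ 2)
    (w : SL(2, ℝ) → ℂ) (hw : Measurable w) (hwb : ∃ m, ∀ g, ‖w g‖ ≤ m) :
    ∫ z in F, ‖∫ g in dG F, w g * P g z ∂mG‖ ^ 2 ≤ κ * ∫ g in dG F, ‖w g‖ ^ 2 ∂mG := by
  have hIw := GDU_inv Γ F hfG P hpc hpz m₀ hm₀ w hw hwb
  set s : ℍ → ℂ := fun z => ∫ g in dG F, w g * P g z ∂mG with hs
  set u : ℍ → ℂ := fun z => (starRingEnd ℂ) (s z) with hu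
  have hIu : InvC Γ u := by
    refine ⟨Complex.continuous_conj.comp hIw.1, fun γ z => ?_⟩
    show (starRingEnd ℂ) (s (γ • z)) = (starRingEnd ℂ) (s z)
    rw [hIw.2 γ z]
  have h1 : ∫ z in F, s z * u z = ∫ g in dG F, w g * W u g ∂mG :=
    GDU_pair Γ F hΓ hfG hfF P hpc m₀ hm₀ W hunf w hw hwb u hIu
  have h2 : ∫ z in F, s z * u z = ((∫ z in F, ‖s z‖ ^ 2 : ℝ) : ℂ) := by
    rw [← integral_complex_ofReal]
    refine integral_congr_ae (Filter.Eventually.of_forall fun z => ?_)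
    show s z * (starRingEnd ℂ) (s z) = ((‖s z‖ ^ 2 : ℝ) : ℂ)
    rw [Complex.mul_conj, Complex.normSq_eq_norm_sq]
  obtain ⟨a, ha⟩ := hwb
  obtain ⟨hWI, b, hb⟩ := hWc u hIu
  have h3 := GDU_cs (μ := mG.restrict (dG F)) hw.aestronglyMeasurable
    hWI.measurable.aestronglyMeasurable ha hb
  set Q := ∫ z in F, ‖s z‖ ^ 2 with hQ
  set V := ∫ g in dG F, ‖w g‖ ^ 2 ∂mG with hV
  have hQ0 : 0 ≤ Q := integral_nonneg fun z => by positivity
  have hV0 : 0 ≤ V := integral_nonneg fun g => by positivity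
  rw [← h1, h2, Complex.norm_real, Real.norm_eq_abs, abs_of_nonneg hQ0] at h3
  have h4 : ∫ g in dG F, ‖W u g‖ ^ 2 ∂mG ≤ κ * Q := by
    have h5 : ∫ z in F, ‖u z‖ ^ 2 = Q := by
      refine integral_congr_ae (Filter.Eventually.of_forall fun z => ?_)
      show ‖(starRingEnd ℂ) (s z)‖ ^ 2 = ‖s z‖ ^ 2
      rw [RCLike.norm_conj]
    rw [← h5]
    exact hκb u hIu
  have h5 : Q ≤ Real.sqrt V * Real.sqrt (κ * Q) :=
    le_trans h3 (mul_le_mul_of_nonneg_left (Real.sqrt_le_sqrt h4) (Real.sqrt_nonneg _))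
  have h6 : Q ^ 2 ≤ V * (κ * Q) := by
    calc Q ^ 2 ≤ (Real.sqrt V * Real.sqrt (κ * Q)) ^ 2 := pow_le_pow_left₀ hQ0 h5 2
      _ = V * (κ * Q) := by
        rw [mul_pow, Real.sq_sqrt hV0, Real.sq_sqrt (mul_nonneg hκ hQ0)]
  rcases hQ0.eq_or_lt with h | h
  · rw [← h]
    positivity
  · have h7 : Q * Q ≤ (κ * V) * Q := by nlinarith
    exact le_of_mul_le_mul_right h7 h

/-- all claims -/
theorem GDU_gen (Γ : Subgroup SL(2, ℝ)) (F : Set ℍ) (κ : ℝ) (hΓ : QU.SurfaceGroup Γ)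
    (hfG : IsFiniteMeasure (mG.restrict (dG F)))
    (hfF : IsFiniteMeasure ((volume : Measure ℍ).restrict F))
    (P : SL(2, ℝ) → ℍ → ℂ) (hpc : Continuous (fun p : SL(2, ℝ) × ℍ => P p.1 p.2))
    (hpz : ∀ (γ : Γ) (g : SL(2, ℝ)) (z : ℍ), P g (γ • z) = P g z) (m₀ : ℝ)
    (hm₀ : ∀ g z, ‖P g z‖ ≤ m₀) (W : (ℍ → ℂ) → SL(2, ℝ) → ℂ)
    (hunf : ∀ u : ℍ → ℂ, InvC Γ u → ∀ g, ∫ z in F, P g z * u z = W u g)
    (hWc : ∀ u : ℍ → ℂ, InvC Γ u → Continuous (W u) ∧ ∃ b, ∀ g, ‖W u g‖ ≤ b)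
    (hκ : 0 ≤ κ)
    (hκb : ∀ u : ℍ → ℂ, InvC Γ u → ∫ g in dG F, ‖W u g‖ ^ 2 ∂mG ≤ κ * ∫ z in F, ‖u z‖ ^ 2)
    (v v' : SL(2, ℝ) → ℂ) (hv : Measurable v) (hv' : Measurable v')
    (hvb : ∃ m, ∀ g, ‖v g‖ ≤ m) (hv'b : ∃ m, ∀ g, ‖v' g‖ ≤ m) :
    InvC Γ (fun z => ∫ g in dG F, v g * P g z ∂mG) ∧
    (∀ u : ℍ → ℂ, InvC Γ u → ∫ z in F, (∫ g in dG F, v g * P g z ∂mG) * u z =
      ∫ g in dG F, v g * W u g ∂mG) ∧
    (∫ g in dG F, ∫ g' in dG F, v g * (∫ z in F, P g z * P g' z) * v' g' ∂mG ∂mG =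
      ∫ z in F, (∫ g in dG F, v g * P g z ∂mG) * (∫ g in dG F, v' g * P g z ∂mG)) ∧
    ‖∫ g in dG F, ∫ g' in dG F, v g * (∫ z in F, P g z * P g' z) * v' g' ∂mG ∂mG‖ ≤
      κ * Real.sqrt (∫ g in dG F, ‖v g‖ ^ 2 ∂mG) * Real.sqrt (∫ g in dG F, ‖v' g‖ ^ 2 ∂mG) := by
  have hI := GDU_inv Γ F hfG P hpc hpz m₀ hm₀ v hv hvb
  have hI' := GDU_inv Γ F hfG P hpc hpz m₀ hm₀ v' hv' hv'b
  have h3 := GDU_third Γ F hΓ hfG hfF P hpc hpz m₀ hm₀ W hunf v v' hv hv' hvb hv'b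
  have o := GDU_one Γ F κ hΓ hfG hfF P hpc hpz m₀ hm₀ W hunf hWc hκ hκb v hv hvb
  have o' := GDU_one Γ F κ hΓ hfG hfF P hpc hpz m₀ hm₀ W hunf hWc hκ hκb v' hv' hv'b
  refine ⟨hI, GDU_pair Γ F hΓ hfG hfF P hpc m₀ hm₀ W hunf v hv hvb, h3, ?_⟩
  rw [h3]
  obtain ⟨c, hc⟩ := GDU_bdd hΓ hI
  obtain ⟨c', hc'⟩ := GDU_bdd hΓ hI'
  have h1 := GDU_cs (μ := (volume : Measure ℍ).restrict F)
    hI.1.measurable.aestronglyMeasurable hI'.1.measurable.aestronglyMeasurable hc hc'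
  refine le_trans h1 ?_
  refine le_trans (mul_le_mul (Real.sqrt_le_sqrt o) (Real.sqrt_le_sqrt o')
    (Real.sqrt_nonneg _) (Real.sqrt_nonneg _)) (le_of_eq ?_)
  rw [Real.sqrt_mul hκ, Real.sqrt_mul hκ]
  have hs : Real.sqrt κ * Real.sqrt κ = κ := Real.mul_self_sqrt hκ
  calc Real.sqrt κ * Real.sqrt (∫ g in dG F, ‖v g‖ ^ 2 ∂mG) *
      (Real.sqrt κ * Real.sqrt (∫ g in dG F, ‖v' g‖ ^ 2 ∂mG)) =
      (Real.sqrt κ * Real.sqrt κ) * Real.sqrt (∫ g in dG F, ‖v g‖ ^ 2 ∂mG) *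
        Real.sqrt (∫ g in dG F, ‖v' g‖ ^ 2 ∂mG) := by ring
    _ = _ := by rw [hs]

/-- **Row GDU** -/
theorem GDU (hGLC : GLC_stmt) (hGMG : GMG_stmt) (hGFD : GFD_stmt) (hGBD : GBD_stmt)
    (hGWB : GWB_stmt) (hGPE : GPE_stmt) : GDU_stmt := by
  intro Γ F f κ hΓ hF hf hfc hκ hκb v v' hv hv' hvb hv'b
  obtain ⟨⟨_, hdvol, hdfin, _⟩, _⟩ := hGFD Γ F hΓ hF
  obtain ⟨_, hpc, hpz, _, hunf, ⟨m₀, hm₀⟩, _⟩ := hGPE Γ F f hΓ hF hf hfc
  have hfG : IsFiniteMeasure (mG.restrict (dG F)) :=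
    ⟨by rw [Measure.restrict_apply_univ]; exact hdfin⟩
  have hfF : IsFiniteMeasure ((volume : Measure ℍ).restrict F) :=
    ⟨by rw [Measure.restrict_apply_univ, ← hdvol]; exact hdfin⟩
  have hWc : ∀ u : ℍ → ℂ, InvC Γ u → Continuous (Wf f u) ∧ ∃ b, ∀ g, ‖Wf f u g‖ ≤ b := by
    intro u hu
    have h1 := (hGWB Γ f u hΓ hf hfc hu).1
    exact ⟨h1.1, (hGBD Γ ℂ (Wf f u) hΓ h1).1⟩
  have h := GDU_gen Γ F κ hΓ hfG hfF (per Γ f) hpc hpz m₀ hm₀ (Wf f) hunf hWc hκ hκb v v' hv hv'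
    hvb hv'b
  exact h

end Pool.Agent.RS
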